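import Pool.Agent.H84.PP.Bx
import Pool.Agent.H84.PP.Lat
import Pool.Agent.H84.PP.Si
import Pool.Agent.H41.PP.Root
import Pool.Agent.H39.PP.Pel
import Pool.Agent.H6.PP.UC
import Pool.Agent.H6.PP.Fin
import Pool.Agent.H13.PP.D
import Pool.Agent.H27.PP.QA
import Pool.Agent.H53.PP.QB
import Pool.Agent.H53.PP.Mn
import Pool.Agent.H53.PP.Spec
import Pool.Agent.H5.PP.Num

/-!
# MP_a60a76_nt (Frey–Mazur): at most `C X ^ (5 / 4 + ε)` congruent pairs of invariants of height `≤ X`

For `j = a / b` in lowest terms let `H(j) = max (|a|, b)`; about `(12 / π ^ 2) X ^ 2` rational numbers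
have height at most `X`.

**Theorem.** For all `D` and `ε > 0` there is `C` such that there are at most `C X ^ (5 / 4 + ε)`
pairs `(j, j')` of different rational numbers of height at most `X` for which there are a number field
`K` of degree at most `D` and prime to `6`, a prime `p ≥ 13` larger than `[K : ℚ]`, and elliptic curves
over `K` with invariants `j` and `j'` which are `p`-congruent over `K`. In particular (`D = 1`, `K = ℚ`): all
primes `p ≥ 13` together have at most `C X ^ (5 / 4 + ε)` pairs of different congruent invariants of height at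
most `X`, out of about `(144 / π ^ 4) X ^ 4` pairs; for all the other ones the Frey–Mazur conjecture holds,
because no curves with these invariants are congruent. (The library has the exponent `76 / 55 = 1.38...`; there
are at least `c X ^ (2 / 3)` pairs: isogenous curves.)

Proof. Let `j = a / b`, `j' = a' / b'` be such a pair, `c = a - 1728 b`, `c' = a' - 1728 b'`. By the local
analysis of the library (`K4H56/HG/Rel.lean`) there are squarefree `A`, `B`, `C`, pairwise prime, with
`A ∣ a, a'`, `B ∣ b, b'`, `C ∣ c, c'` such that (up to factors `s` composed of few primes, which have `X ^ ε`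
values) `a = A α u³`, `a' = A α' u'³` with `α`, `α'` dividing `A`, `c = C w²`, `c' = C w'²`, `b = B z ^ 13` and
`b' = B z' ^ 13`; the primes of `b / B`, `b' / B` which divide `B` are in `R = gcd (B, b / B)`,
`R' = gcd (B, b' / B)`. The pairs with given dyadic ranges of `A`, `B`, `C`, `α`, `α'`, `R`, `R'` are counted
in seven ways. The library had: `a`, `c`, or `a`, `b`, or `b`, `c` and then `a'`, `b'`, and the cofactors
`a / A`, `a' / A`, `c / C`, `c' / C`, which determine `B`. New are the following arguments.
* The number of partners (`uc`): given `j` and `b'`, the equation `a' = c' + 1728 b'` is a congruence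
  `A s α' u'³ ≡ 1728 b'` modulo `C`, so there are only `X ^ ε (1 + (X / (A α')) ^ (1 / 3) / C)` values of `u'`.
* The number of first invariants (`d`): given `α`, `R` and the cofactors `a / A`, `b / B`, `c / C`, the vector
  `(A / α, B / R, C)` satisfies a linear equation, so it is in a plane lattice, and if `H(j) > X / 2` (this is
  enough: dyadic summation and symmetry) there are at most `1 + O(A B C / (α R X))` primitive vectors.
* Given `B`, `b`, `b'` and the cofactors `a / A`, `a' / A` (`qa`), the number `C` is a divisor of the nonzero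
  `(a b' - a' b) / (A B)`, and eliminating `A` gives a Pell equation for `w`, `w'`, which has `X ^ ε` solutions;
  the same for `A`, `a`, `a'` and the cofactors `b / B`, `b' / B` (`qb`).
By linear programming (`lp`) one of the seven bounds is at most `X ^ (5 / 4 + ε)` in each range.
-/

set_option autoImplicit false

open WeierstrassCurve

namespace Pool.Agent.Results.MP_a60a76_nt.PairsFiveFourths

section
variable {K : Type} [Field K]

/-- The curve `y² = x³ + Ax + B` over the field `K`. -/
def curve (A B : K) : WeierstrassCurve K := ⟨0, 0, 0, A, B⟩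

/-- Its `j`-invariant. -/
noncomputable def invariant (A B : K) : K := 1728 * (4 * A ^ 3) / (4 * A ^ 3 + 27 * B ^ 2)

open scoped Classical in
/-- The group of its points over the algebraic closure of `K`. -/
abbrev Points (A B : K) : Type := ((curve A B).baseChange (AlgebraicClosure K)).toAffine.Point

open scoped Classical in
/-- The action of an automorphism `σ` of the algebraic closure on the points. -/
noncomputable def galois (A B : K) (σ : AlgebraicClosure K ≃ₐ[K] AlgebraicClosure K) :
    Points A B →+ Points A B :=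
  WeierstrassCurve.Affine.Point.map (σ : AlgebraicClosure K →ₐ[K] AlgebraicClosure K)

open scoped Classical in
/-- The curves `y² = x³ + Ax + B` and `y² = x³ + A'x + B'` are `p`-congruent over `K`: some map between
the groups of points restricts to a bijective additive map between the groups of points killed by `p`
which commutes with the Galois group. -/
def Congruent (p : ℕ) (A B A' B' : K) : Prop :=
  ∃ f : Points A B → Points A' B', (∀ P Q, p • P = 0 → p • Q = 0 → f (P + Q) = f P + f Q) ∧
    Set.BijOn f {P | p • P = 0} {Q | p • Q = 0} ∧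
    ∀ (σ : AlgebraicClosure K ≃ₐ[K] AlgebraicClosure K) (P : Points A B), p • P = 0 →
      f (galois A B σ P) = galois A' B' σ (f P)

end

/-- The height of `j = a / b`, in lowest terms: the maximum of `|a|` and `b`. -/
def height (j : ℚ) : ℕ := max j.num.natAbs j.den

/-- The invariants `j` and `j'` are congruent: there are a number field `K` of degree at most `D` and
prime to `6`, a prime `p ≥ 13` larger than the degree, and elliptic curves over `K` with invariants `j`
and `j'` which are `p`-congruent over `K`. (For `D = 1`: elliptic curves over `ℚ`, any prime `p ≥ 13`.) -/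
def CongruentInvariants (D : ℕ) (j j' : ℚ) : Prop :=
  ∃ (K : Type) (_ : Field K) (_ : NumberField K) (p : ℕ) (A B A' B' : K),
    Module.finrank ℚ K ≤ D ∧ (Module.finrank ℚ K).Coprime 6 ∧
    p.Prime ∧ 13 ≤ p ∧ Module.finrank ℚ K < p ∧
    4 * A ^ 3 + 27 * B ^ 2 ≠ 0 ∧ 4 * A' ^ 3 + 27 * B' ^ 2 ≠ 0 ∧
    invariant A B = (j : K) ∧ invariant A' B' = (j' : K) ∧ Congruent p A B A' B'

open Pool.Agent.H84.PP in
/-- the number of pairs -/
theorem main : S_FIN :=
  Pool.Agent.H6.PP.fin
    (Pool.Agent.H53.PP.main
      (box_of (Pool.Agent.H6.PP.uc Pool.Agent.H41.PP.root si) (Pool.Agent.H13.PP.d lat)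
        (Pool.Agent.H27.PP.qa si) (Pool.Agent.H53.PP.qb si) Pool.Agent.H5.PP.num)
      Pool.Agent.H39.PP.pel)
    Pool.Agent.H53.PP.spec

/-- **The number of congruent pairs.** For every `ε > 0` there are at most `C X ^ (5 / 4 + ε)` pairs of
different congruent rational invariants of height at most `X`. -/
theorem result (D : ℕ) (ε : ℝ) (hε : 0 < ε) : ∃ C : ℝ, ∀ X : ℕ, 1 ≤ X →
    {x : ℚ × ℚ | x.1 ≠ x.2 ∧ height x.1 ≤ X ∧ height x.2 ≤ X ∧
      CongruentInvariants D x.1 x.2}.Finite ∧
    (({x : ℚ × ℚ | x.1 ≠ x.2 ∧ height x.1 ≤ X ∧ height x.2 ≤ X ∧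
      CongruentInvariants D x.1 x.2}.ncard : ℕ) : ℝ) ≤ C * (X : ℝ) ^ (5 / 4 + ε) := by
  have hinv : ∀ {K : Type} [Field K] (A B : K), Pool.Agent.Y673.Loc.jv A B = invariant A B := by
    intro K _ A B
    unfold Pool.Agent.Y673.Loc.jv invariant
    ring
  obtain ⟨C, h⟩ := main D ε hε
  refine ⟨C, fun X hX => ?_⟩
  have hfin := Pool.Agent.K4H56.HG.PS_finite D 13 X X
  have hsub : {x : ℚ × ℚ | x.1 ≠ x.2 ∧ height x.1 ≤ X ∧ height x.2 ≤ X ∧
      CongruentInvariants D x.1 x.2} ⊆ Pool.Agent.K4H56.HG.PS D 13 X X := by
    rintro x ⟨h0, h1, h2, K, _, _, p, A, B, A', B', hD, h6, hp, h13, hn, hd, hd', hj, hj',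
      ⟨f, f1, f2, f3⟩⟩
    exact ⟨h0, h1, h2, K, _, _, p, A, B, A', B', hD, h6, h13,
      ⟨hd, hd', by rw [hinv, hj], by rw [hinv, hj'], hp, h13, hn, ⟨f, f1, f2, f3⟩⟩⟩
  exact ⟨hfin.subset hsub, le_trans (Nat.cast_le.2 (Set.ncard_le_ncard hsub hfin)) (h X hX)⟩

end Pool.Agent.Results.MP_a60a76_nt.PairsFiveFourths
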